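import Mathlib

namespace Pool.Agent.Results.MP_e444d1_an.NoneExist

open Set Filter Topology MeasureTheory
open scoped ContDiff

/-- Complete monotonicity on `(0, ∞)`. -/
def CM (m : ℝ → ℝ) : Prop :=
  ContDiffOn ℝ ∞ m (Ioi 0) ∧ ∀ (k : ℕ) (t : ℝ), 0 < t → 0 ≤ (-1) ^ k * iteratedDeriv k m t

/-- Complete Bernstein function: Lévy–Khintchine form with a completely monotone Lévy density. -/
def IsCBF (f : ℝ → ℝ) : Prop :=
  ∃ (a b : ℝ) (m : ℝ → ℝ), 0 ≤ a ∧ 0 ≤ b ∧ CM m ∧ IntegrableOn (fun t => min 1 t * m t) (Ioi 0) ∧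
    ∀ x, 0 < x → f x = a + b * x + ∫ t in Ioi 0, (1 - Real.exp (-x * t)) * m t

/-- `F` interpolates the sequence `u`. -/
def Interpolates (F : ℝ → ℝ) (u : ℕ → ℝ) : Prop :=
  (∀ n : ℕ, 1 ≤ n → F n = u n) ∧ Tendsto F (𝓝[>] 0) (𝓝 (u 0))

theorem lower (m : ℝ → ℝ) (hm : CM m) (hi : IntegrableOn (fun t => min 1 t * m t) (Ioi 0))
    (s x : ℝ) (hx : 0 < x) (hs : 2 / x ≤ s) :
    Real.exp (-2) * (1 - Real.exp (-1)) * m s / x ≤
      (∫ t in Ioi 0, (1 - Real.exp (-(2 * x) * t)) * m t) -
        ∫ t in Ioi 0, (1 - Real.exp (-x * t)) * m t := by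
  have m0 : ∀ t, 0 < t → 0 ≤ m t := fun t ht => by simpa using hm.2 0 t ht
  have dm : DifferentiableOn ℝ m (Ioi 0) := hm.1.differentiableOn (by simp)
  have anti : AntitoneOn m (Ioi 0) := antitoneOn_of_deriv_nonpos (convex_Ioi _) dm.continuousOn
    (dm.mono interior_subset) fun t ht => by simpa using hm.2 1 t (interior_subset ht)
  have I : ∀ y : ℝ, 0 < y → IntegrableOn (fun t => (1 - Real.exp (-y * t)) * m t) (Ioi 0) := by
    intro y hy
    refine (hi.const_mul (max 1 y)).mono' (ContinuousOn.aestronglyMeasurable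
      (ContinuousOn.mul (by fun_prop) dm.continuousOn) measurableSet_Ioi) ?_
    filter_upwards [ae_restrict_mem measurableSet_Ioi] with t ht
    have ht : 0 < t := ht
    have e1 : Real.exp (-y * t) ≤ 1 := Real.exp_le_one_iff.2 (by nlinarith)
    have e2 := Real.add_one_le_exp (-y * t)
    have e3 := Real.exp_pos (-y * t)
    rw [Real.norm_of_nonneg (mul_nonneg (by linarith) (m0 t ht)), ← mul_assoc]
    refine mul_le_mul_of_nonneg_right ?_ (m0 t ht)
    rcases le_total 1 t with h | h
    · rw [min_eq_left h]; linarith [le_max_left 1 y]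
    · rw [min_eq_right h]; nlinarith [le_max_right 1 y]
  have J := (I _ (by positivity : 0 < 2 * x)).sub (I x hx)
  rw [← integral_sub (I _ (by positivity)) (I x hx)]
  have x1 : 0 < 1 / x := by positivity
  have sub : Icc (1 / x) (2 / x) ⊆ Ioi 0 := fun t ht => x1.trans_le ht.1
  have key : ∀ t, (1 - Real.exp (-(2 * x) * t)) * m t - (1 - Real.exp (-x * t)) * m t =
      Real.exp (-x * t) * (1 - Real.exp (-x * t)) * m t := fun t => by
    rw [show -(2 * x) * t = -x * t + -x * t by ring, Real.exp_add]; ring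
  refine le_trans ?_ (setIntegral_mono_set J ?_ sub.eventuallyLE)
  · have := setIntegral_ge_of_const_le_real (μ := volume) measurableSet_Icc
      (c := Real.exp (-2) * (1 - Real.exp (-1)) * m s) (by simp) (fun t ht => ?_) (J.mono_set sub)
    · refine le_trans (le_of_eq ?_) this
      rw [Real.volume_real_Icc_of_le (by gcongr; norm_num)]
      field_simp; ring
    · have h1 : 1 ≤ x * t := by have := ht.1; rwa [div_le_iff₀' hx] at this
      have h2 : x * t ≤ 2 := by have := ht.2; rwa [le_div_iff₀' hx] at this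
      have h3 := anti (sub ht) (sub ht |>.trans_le (ht.2.trans hs)) (ht.2.trans hs)
      have h4 : Real.exp (-2) ≤ Real.exp (-x * t) := Real.exp_le_exp.2 (by linarith)
      have h5 : Real.exp (-x * t) ≤ Real.exp (-1) := Real.exp_le_exp.2 (by linarith)
      have h6 : Real.exp (-1) ≤ 1 := Real.exp_le_one_iff.2 (by norm_num)
      have h7 := m0 s (sub ht |>.trans_le (ht.2.trans hs))
      show _ ≤ (1 - Real.exp (-(2 * x) * t)) * m t - (1 - Real.exp (-x * t)) * m t
      have h8 : 0 ≤ 1 - Real.exp (-1) := by linarith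
      rw [key]
      exact mul_le_mul (mul_le_mul h4 (by linarith) h8 (Real.exp_pos _).le) h3 h7
        (mul_nonneg (Real.exp_pos _).le (by linarith))
  · filter_upwards [ae_restrict_mem measurableSet_Ioi] with t ht
    have ht : 0 < t := ht
    show 0 ≤ (1 - Real.exp (-(2 * x) * t)) * m t - (1 - Real.exp (-x * t)) * m t
    have e1 : Real.exp (-x * t) ≤ 1 := Real.exp_le_one_iff.2 (by nlinarith)
    rw [key]
    exact mul_nonneg (mul_nonneg (Real.exp_pos _).le (by linarith)) (m0 t ht)

theorem result (p N D : ℝ) (hp : 1 < p) (hN : -1 < N) (hND : N < D) (hD : D ≤ 0) :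
    ¬ ∃ F : ℝ → ℝ, IsCBF F ∧ Interpolates F fun n => (p ^ n + N) / (p ^ n + D) := by
  rintro ⟨F, ⟨a, b, m, -, hb, hm, hi, hF⟩, hI, -⟩
  have m0 : ∀ t, 0 < t → 0 ≤ m t := fun t ht => by simpa using hm.2 0 t ht
  have pos : ∀ n : ℕ, 0 < p ^ n + D := fun n => by linarith [one_le_pow₀ hp.le (n := n)]
  have eq : ∀ n : ℕ, (p ^ n + N) / (p ^ n + D) = 1 - (D - N) / (p ^ n + D) := fun n => by
    have := (pos n).ne'
    field_simp; ring
  have c0 : 0 < Real.exp (-2) * (1 - Real.exp (-1)) :=
    mul_pos (Real.exp_pos _) (sub_pos.2 (Real.exp_lt_one_iff.2 (by norm_num)))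
  generalize hc : Real.exp (-2) * (1 - Real.exp (-1)) = c at c0
  have lim : Tendsto (fun n : ℕ => (n : ℝ) * ((D - N) / (p ^ n + D))) atTop (𝓝 0) := by
    have h1 := tendsto_pow_const_div_const_pow_of_one_lt 1 hp
    have h2 := tendsto_pow_const_div_const_pow_of_one_lt 0 hp
    have h3 := (h1.mul_const (D - N)).div ((h2.mul_const D).const_add 1) (by simp)
    simp only [zero_mul, add_zero, div_one] at h3
    refine h3.congr fun n => ?_
    have := (pos n).ne'
    have : p ^ n ≠ 0 := by positivity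
    simp only [Pi.div_apply]
    field_simp
  have main : ∀ s, 0 < s → b + c * m s ≤ 0 := fun s hs => by
    refine ge_of_tendsto lim ?_
    filter_upwards [eventually_ge_atTop 1,
      (tendsto_natCast_atTop_atTop (R := ℝ)).eventually_ge_atTop (2 / s)] with n h1 h2
    have n1 : (1 : ℝ) ≤ n := by exact_mod_cast h1
    have L := lower m hm hi s n (by linarith) (by
      rw [div_le_iff₀ (by linarith)]; rwa [div_le_iff₀' hs] at h2)
    have e1 := hF n (by linarith)
    have e2 := hF (2 * n) (by linarith)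
    have i1 := hI n h1
    have i2 := hI (2 * n) (by omega)
    push_cast at i2
    simp only [eq] at i1 i2
    have := div_pos (sub_pos.2 hND) (pos (2 * n))
    rw [hc, div_le_iff₀ (by linarith)] at L
    have : b * n + ((∫ t in Ioi 0, (1 - Real.exp (-(2 * n) * t)) * m t) -
        ∫ t in Ioi 0, (1 - Real.exp (-n * t)) * m t) ≤ (D - N) / (p ^ n + D) := by linarith
    nlinarith [mul_le_mul_of_nonneg_left this (show (0 : ℝ) ≤ n by linarith),
      mul_nonneg hb (show (0 : ℝ) ≤ n * n - 1 by nlinarith)]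
  have b0 : b = 0 := by nlinarith [main 1 one_pos, m0 1 one_pos]
  have mz : ∀ s, 0 < s → m s = 0 := fun s hs => by nlinarith [main s hs, m0 s hs]
  have Fa : ∀ x, 0 < x → F x = a := fun x hx => by
    rw [hF x hx, b0, setIntegral_eq_zero_of_forall_eq_zero fun t ht => by rw [mz t ht, mul_zero]]
    ring
  have i1 := hI 1 le_rfl
  have i2 := hI 2 (by norm_num)
  rw [Fa _ (by norm_num)] at i1 i2
  simp only [eq] at i1 i2
  have : (D - N) / (p ^ 2 + D) < (D - N) / (p ^ 1 + D) :=
    div_lt_div_of_pos_left (by linarith) (pos 1) (by nlinarith)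
  linarith

end Pool.Agent.Results.MP_e444d1_an.NoneExist
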